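import Pool.Agent.Q120.BH.Stm
import Pool.Agent.Y781.JR.Dens

/-!
# Project BH (helper120), job SQA: the polynomials `X ^ 2 + a`
-/

set_option autoImplicit false

namespace Pool.Agent.Q182.BH

open Finset Filter Polynomial Pool.Agent.Q120.BH
open Pool.Agent.W23.DC
open Pool.Agent.Y882.PX
open Pool.Agent.Y882.JR
open Pool.Agent.Y882.SI
open scoped Topology

theorem eval_eq (a : ℤ) (n : ℕ) : (X ^ 2 + Polynomial.C a : ℤ[X]).eval (n : ℤ) = (n : ℤ) ^ 2 + a := by
  simp

theorem rho_eq' (a : ℤ) (p : ℕ) :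
    rho (X ^ 2 + Polynomial.C a) p = ((Finset.range p).filter (fun m : ℕ => (p : ℤ) ∣ (m : ℤ) ^ 2 + a)).card := by
  classical
  unfold rho
  exact congrArg card (filter_congr (fun m _ => by rw [eval_eq]))

theorem Cz_eq (a : ℤ) (z : ℕ) : Cz (X ^ 2 + Polynomial.C a) z = Pool.Agent.Y781.JR.RR a z := by
  unfold Cz Pool.Agent.Y781.JR.RR
  rw [← filter_filter, prod_filter (s := (range z).filter Nat.Prime)]
  refine prod_congr rfl (fun p hp => ?_)
  have hpp := (mem_filter.1 hp).2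
  have h2 : (2 : ℝ) ≤ p := by exact_mod_cast hpp.two_le
  rw [rho_eq', Pool.Agent.Y781.JR.rho_eq]
  split_ifs with h
  · have h3 := Pool.Agent.Y882.SI.ro_quad a p hpp h
    have h4 : (ro (QF a) 0 p : ℝ) = 1 + (jacobiSym (-a) p : ℝ) := by
      exact_mod_cast h3
    rw [h4]
    have h5 : (p : ℝ) - 1 ≠ 0 := by linarith
    have h6 : (p : ℝ) ≠ 0 := by linarith
    have h7 : 1 - 1 / (p : ℝ) ≠ 0 := by
      rw [sub_ne_zero]
      intro h8
      rw [eq_comm, div_eq_one_iff_eq h6] at h8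
      linarith
    field_simp
    ring
  · have hp2 : p = 2 := by
      by_contra h'
      exact h h'
    subst hp2
    rw [Pool.Agent.Y882.SI.ro_quad_two]
    norm_num

theorem t_SQA : J_SQA := by
  intro a ha
  obtain ⟨C, hC, hR⟩ := Pool.Agent.Y781.JR.RR_conv a ha
  refine ⟨C, ?_, ?_, ?_, ?_, hC⟩
  · exact natDegree_X_pow_add_C
  · norm_num
  · rw [leadingCoeff_X_pow_add_C (by norm_num)]
    norm_num
  · exact hR.congr (fun z => (Cz_eq a z).symm)

end Pool.Agent.Q182.BH
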